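import Pool.Agent.Lib.H93.Main

/-!
# MP_fb0703_an, Q1: the power series constant `P`

Waldvogel's conjecture: `P` equals the number `1.7818046151...` obtained from the zeros of
`ψ(z, q) = ∑_{n ≥ 0} q^{n(n-1)/2} z^n`, `|q| ≤ 1`.

The lower bound comes from the functions `ψ(·, q)`, `|q| = 1`, themselves (Hurwitz). For the upper
bound put `r = 1 / P₀`, `P₀ = 1.78180461514610...`. If all zeros `1 / w_n` of the partial sums
`S_n` satisfy `|w_n| ≤ r` from some point on, then
`a_{n+1} = - ∑_{j ≤ n} w_{n+1}^{j+1} a_{n-j}`, and it is shown that every such sequence is bounded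
(a Lyapunov function given by five Hermitian forms in the history `x_j = a_{n-j}`, rotations and
conjugations included; the first form is exact along the extremal orbit
`x_j = q^{-j(j+1)/2} ω^{-j}`), from which `P ≤ 1 / r` follows by scaling.
-/

namespace Pool.Agent.Results.MP_fb0703_an.PowerSeriesConstant

open Filter Topology
open scoped ENNReal NNReal

/-- value at `z` of the `n`-th partial sum of the power series with coefficients `a`. -/
noncomputable def partialSum (a : ℕ → ℂ) (n : ℕ) (z : ℂ) : ℂ :=
  ∑ k ∈ Finset.range (n + 1), a k * z ^ k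

/-- the largest modulus of a zero of the `n`-th partial sum (a supremum in `[0, ∞]`;
it is `0` if there is no zero and `∞` if the partial sum vanishes identically, which for a
series of finite positive radius of convergence happens only for finitely many `n`). -/
noncomputable def maxZeroModulus (a : ℕ → ℂ) (n : ℕ) : ℝ≥0∞ :=
  ⨆ (z : ℂ) (_ : partialSum a n z = 0), (‖z‖₊ : ℝ≥0∞)

/-- the power series with coefficients `a` has radius of convergence exactly `1`. -/
def RadiusOne (a : ℕ → ℂ) : Prop :=
  (FormalMultilinearSeries.ofScalars ℂ a).radius = 1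

/-- the power series constant `P`: the supremum, over all power series with radius of
convergence exactly `1`, of the lower limit of the largest modulus of a zero of the `n`-th
partial sum. -/
noncomputable def powerSeriesConstant : ℝ≥0∞ :=
  ⨆ (a : ℕ → ℂ) (_ : RadiusOne a), liminf (fun n : ℕ => maxZeroModulus a n) atTop

/-- `ψ(z, q) = ∑_{n ≥ 0} q^{n(n-1)/2} z^n` (used for `|q| ≤ 1`, `|z| < 1`, where the series
converges). -/
noncomputable def psi (z q : ℂ) : ℂ := ∑' n : ℕ, q ^ (n * (n - 1) / 2) * z ^ n

/-- the supremum of `1 / |z|` over all zeros `z`, `|z| < 1`, of the functions `ψ(·, q)`,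
`|q| ≤ 1`. -/
noncomputable def psiConstant : ℝ≥0∞ :=
  ⨆ (q : ℂ) (_ : ‖q‖ ≤ 1) (z : ℂ) (_ : ‖z‖ < 1) (_ : psi z q = 0), ENNReal.ofReal (1 / ‖z‖)

/-- **Waldvogel's conjecture**: the power series constant equals the constant obtained from the
zeros of `ψ(z, q)`, and its value is `1.7818046151461000...`. -/
theorem result :
    powerSeriesConstant = psiConstant ∧
      ENNReal.ofReal 1.781804615146099 < powerSeriesConstant ∧
      powerSeriesConstant < ENNReal.ofReal 1.781804615146101 := by
  obtain ⟨K⟩ := Pool.Agent.H93.exists_crit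
  have h0 : powerSeriesConstant = ENNReal.ofReal (1 / K.r) := Pool.Agent.H93.constant_eq K
  have h1 : psiConstant = ENNReal.ofReal (1 / K.r) := Pool.Agent.H93.waldvogel_eq K
  have hr := K.hre
  rw [abs_le] at hr
  have hr0 := K.r_pos
  refine ⟨?_, ?_, ?_⟩
  · rw [h0, h1]
  · rw [h0, ENNReal.ofReal_lt_ofReal_iff (by positivity), lt_div_iff₀ hr0]
    have h2 := hr.2
    unfold Pool.Agent.H93.rHat at h2
    norm_num at h2 ⊢
    linarith
  · rw [h0, ENNReal.ofReal_lt_ofReal_iff (by norm_num), div_lt_iff₀ hr0]
    have h1 := hr.1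
    unfold Pool.Agent.H93.rHat at h1
    norm_num at h1 ⊢
    linarith

end Pool.Agent.Results.MP_fb0703_an.PowerSeriesConstant
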